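import Mathlib

/-!
# Tournament games: optimal strategies and their supports

For a skew-symmetric matrix `a` on a finite set with all off-diagonal entries `±1` (a tournament),
every nonempty set of vertices has exactly one positive subset which beats all other vertices
(Fisher and Ryan).
-/

namespace Pool.Agent.Lib.MP_286abe_co

open Finset

variable {V : Type*} [Fintype V] [DecidableEq V]

/-- skew-symmetric sign matrices -/
structure IsSign (a : V → V → ℤ) : Prop where
  skew : ∀ x y, a x y = - a y x
  pm : ∀ x y, x ≠ y → a x y = 1 ∨ a x y = -1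

/-- the pay-off of `x` against the strategy `z` -/
def pay (a : V → V → ℤ) (z : V → ℝ) (x : V) : ℝ := ∑ v, (a x v : ℝ) * z v

omit [Fintype V] [DecidableEq V] in
lemma IsSign.diag {a : V → V → ℤ} (h : IsSign a) (x : V) : a x x = 0 := by
  have := h.skew x x; omega

/-- Sets of even size are nonsingular. -/
lemma even_nonsing {a : V → V → ℤ} (h : IsSign a) {S : Finset V} (hS : Even S.card) {z : V → ℝ}
    (hz : ∀ v, v ∉ S → z v = 0) (hp : ∀ x ∈ S, pay a z x = 0) : ∀ v, z v = 0 := by
  classical
  -- the matrix on `S`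
  let M : Matrix S S ℤ := fun x y => a x y
  have hdet2 : ((M.map (Int.castRingHom (ZMod 2))).det) ≠ 0 := by
    have hM : M.map (Int.castRingHom (ZMod 2)) = Matrix.of (fun _ _ => (1 : ZMod 2)) + 1 := by
      ext x y
      rcases eq_or_ne x y with rfl | hxy
      · simp only [Matrix.map_apply, Matrix.add_apply, Matrix.of_apply, Matrix.one_apply_eq]
        have : M x x = 0 := h.diag _
        rw [this]; decide
      · simp only [Matrix.map_apply, Matrix.add_apply, Matrix.of_apply, Matrix.one_apply_ne hxy]
        have hne : (x : V) ≠ y := fun hh => hxy (Subtype.ext hh)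
        rcases h.pm x y hne with h1 | h1
        · have : M x y = 1 := h1
          rw [this]; decide
        · have : M x y = -1 := h1
          rw [this]; decide
    have hsq : (M.map (Int.castRingHom (ZMod 2))) * (M.map (Int.castRingHom (ZMod 2))) = 1 := by
      rw [hM, mul_add, add_mul, add_mul, mul_one, one_mul, one_mul]
      have hJ : (Matrix.of (fun (_ _ : S) => (1 : ZMod 2))) * (Matrix.of (fun (_ _ : S) => (1 : ZMod 2))) = 0 := by
        ext x y
        simp only [Matrix.mul_apply, Matrix.of_apply, mul_one, Matrix.zero_apply, sum_const,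
          card_univ, Fintype.card_coe, nsmul_eq_mul]
        rw [(ZMod.natCast_eq_zero_iff_even).2 hS]
      rw [hJ, zero_add]
      ext x y
      have h2 : ∀ t u : ZMod 2, t + (t + u) = u := by decide
      simpa using h2 _ _
    intro h0
    have := congrArg Matrix.det hsq
    rw [Matrix.det_mul, h0] at this
    simp at this
  have hdet : M.det ≠ 0 := by
    intro h0
    apply hdet2
    rw [← RingHom.mapMatrix_apply, ← RingHom.map_det, h0, map_zero]
  have hdetR : ((M.map (Int.castRingHom ℝ)).det) ≠ 0 := by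
    rw [← RingHom.mapMatrix_apply, ← RingHom.map_det]
    simpa using hdet
  have hker : (M.map (Int.castRingHom ℝ)).mulVec (fun v : S => z v) = 0 := by
    ext x
    have := hp x x.2
    rw [pay, ← sum_subset (subset_univ S) (fun v _ hv => by rw [hz v hv, mul_zero])] at this
    rw [← sum_coe_sort] at this
    simp only [Matrix.mulVec, dotProduct, Pi.zero_apply]
    exact this
  have hzero : (fun v : S => z v) = 0 := Matrix.eq_zero_of_mulVec_eq_zero hdetR hker
  intro v
  by_cases hv : v ∈ S
  · exact congrFun hzero ⟨v, hv⟩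
  · exact hz v hv

omit [DecidableEq V] in
/-- bilinear skew-symmetry -/
lemma sum_mul_pay {a : V → V → ℤ} (h : IsSign a) (z w : V → ℝ) :
    ∑ x, w x * pay a z x = - ∑ x, z x * pay a w x := by
  simp only [pay, mul_sum]
  rw [sum_comm, ← sum_neg_distrib]
  refine sum_congr rfl fun x _ => ?_
  rw [← sum_neg_distrib]
  refine sum_congr rfl fun y _ => ?_
  rw [h.skew y x]
  push_cast
  ring

omit [DecidableEq V] in
lemma sum_mul_pay_self {a : V → V → ℤ} (h : IsSign a) (z : V → ℝ) :
    ∑ x, z x * pay a z x = 0 := by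
  have := sum_mul_pay h z z
  linarith

/-- `z` is an optimal strategy for the tournament induced on `S` -/
structure Opt (a : V → V → ℤ) (S : Finset V) (z : V → ℝ) : Prop where
  nonneg : ∀ v, 0 ≤ z v
  supp : ∀ v, v ∉ S → z v = 0
  ne : ∃ v, z v ≠ 0
  le : ∀ x ∈ S, pay a z x ≤ 0

/-- Existence of optimal strategies. -/
lemma exists_opt {a : V → V → ℤ} (h : IsSign a) {S : Finset V} (hS : S.Nonempty) :
    ∃ z, Opt a S z := by
  classical
  -- the simplex
  let K : Set (V → ℝ) := {z | (∀ v, 0 ≤ z v) ∧ (∀ v, v ∉ S → z v = 0) ∧ ∑ v, z v = 1}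
  have hpc : ∀ x, Continuous fun z : V → ℝ => pay a z x := fun x => by
    unfold pay; fun_prop
  have hKc : IsCompact K := by
    have hclosed : IsClosed K := by
      have h1 : IsClosed {z : V → ℝ | ∀ v, 0 ≤ z v} := by
        simp only [Set.ofPred_forall]
        exact isClosed_iInter fun v => isClosed_le continuous_const (continuous_apply v)
      have h2 : IsClosed {z : V → ℝ | ∀ v, v ∉ S → z v = 0} := by
        simp only [Set.ofPred_forall]
        exact isClosed_iInter fun v => isClosed_iInter fun _ =>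
          isClosed_eq (continuous_apply v) continuous_const
      have h3 : IsClosed {z : V → ℝ | ∑ v, z v = 1} :=
        isClosed_eq (continuous_finsetSum _ fun v _ => continuous_apply v) continuous_const
      exact (h1.inter (h2.inter h3))
    refine (isCompact_univ_pi (fun _ : V => isCompact_Icc (a := (0:ℝ)) (b := 1))).of_isClosed_subset
      hclosed ?_
    rintro z ⟨h1, h2, h3⟩ v _
    refine ⟨h1 v, ?_⟩
    rw [← h3]
    exact single_le_sum (fun w _ => h1 w) (mem_univ v)
  have hKn : K.Nonempty := by
    obtain ⟨s, hs⟩ := hS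
    refine ⟨Pi.single s 1, fun v => ?_, fun v hv => ?_, ?_⟩
    · by_cases hvs : v = s
      · subst hvs; simp
      · simp [Pi.single_eq_of_ne hvs]
    · have : v ≠ s := fun hh => hv (hh ▸ hs)
      simp [Pi.single_eq_of_ne this]
    · simp
  let F : (V → ℝ) → ℝ := fun z => ∑ x ∈ S, (max (pay a z x) 0) ^ 2
  have hF : Continuous F := by
    refine continuous_finsetSum _ fun x _ => ?_
    exact ((hpc x).max continuous_const).pow 2
  obtain ⟨z, hzK, hzmin⟩ := hKc.exists_isMinOn hKn hF.continuousOn
  obtain ⟨hz0, hzS, hz1⟩ := hzK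
  refine ⟨z, hz0, hzS, ?_, ?_⟩
  · by_contra hc
    push Not at hc
    simp [hc] at hz1
  by_contra hc
  push Not at hc
  obtain ⟨x0, hx0, hx0p⟩ := hc
  -- the improving direction
  let w : V → ℝ := fun x => if x ∈ S then max (pay a z x) 0 else 0
  have hw0 : ∀ x, 0 ≤ w x := fun x => by
    simp only [w]; split_ifs
    · exact le_max_right _ _
    · exact le_rfl
  have hwS : ∀ x, x ∉ S → w x = 0 := fun x hx => by simp [w, hx]
  set W : ℝ := ∑ x, w x with hW
  have hWpos : 0 < W := by
    have h1 : w x0 ≤ W := single_le_sum (fun v _ => hw0 v) (mem_univ x0)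
    have h2 : 0 < w x0 := by simp only [w, hx0, if_true]; exact lt_max_of_lt_left hx0p
    linarith
  set Q : ℝ := ∑ x, (w x) ^ 2 with hQ
  have hQpos : 0 < Q := by
    have h1 : (w x0) ^ 2 ≤ Q := single_le_sum (f := fun x => (w x) ^ 2) (fun v _ => sq_nonneg _) (mem_univ x0)
    have h2 : 0 < w x0 := by simp only [w, hx0, if_true]; exact lt_max_of_lt_left hx0p
    nlinarith
  have hFz : F z = Q := by
    simp only [F, hQ]
    rw [← sum_subset (subset_univ S) (fun x _ hx => by rw [hwS x hx]; ring)]
    exact sum_congr rfl fun x hx => by simp [w, hx]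
  have hwpay : ∑ x, w x * pay a z x = Q := by
    simp only [hQ]
    refine sum_congr rfl fun x _ => ?_
    by_cases hx : x ∈ S
    · simp only [w, hx, if_true]
      rcases le_total (pay a z x) 0 with h1 | h1
      · rw [max_eq_right h1]; ring
      · rw [max_eq_left h1]; ring
    · simp [hwS x hx]
  -- direction
  let d : V → ℝ := fun x => w x / W - z x
  have hwd : ∑ x, w x * pay a d x = - Q := by
    have h1 : ∀ x, pay a d x = pay a w x / W - pay a z x := fun x => by
      simp only [pay, d, sum_div, ← sum_sub_distrib]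
      exact sum_congr rfl fun y _ => by ring
    have h2 := sum_mul_pay_self h w
    calc ∑ x, w x * pay a d x = (∑ x, w x * pay a w x) / W - ∑ x, w x * pay a z x := by
          rw [sum_div, ← sum_sub_distrib]
          exact sum_congr rfl fun x _ => by rw [h1]; ring
      _ = - Q := by rw [h2, hwpay]; ring
  set D : ℝ := ∑ x ∈ S, (pay a d x) ^ 2 with hD
  have hD0 : 0 ≤ D := sum_nonneg fun _ _ => sq_nonneg _
  -- the step
  set t : ℝ := min 1 (Q / (D + 1)) with ht
  have ht0 : 0 < t := lt_min one_pos (by positivity)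
  have ht1 : t ≤ 1 := min_le_left _ _
  have htD : t * (D + 1) ≤ Q := by
    have := min_le_right 1 (Q / (D + 1))
    rw [← ht] at this
    rwa [le_div_iff₀ (by positivity)] at this
  let z' : V → ℝ := fun x => z x + t * d x
  have hz'K : z' ∈ K := by
    refine ⟨fun v => ?_, fun v hv => ?_, ?_⟩
    · have h1 : z' v = (1 - t) * z v + t * (w v / W) := by simp only [z', d]; ring
      rw [h1]
      have := hz0 v; have := hw0 v
      have : 0 ≤ 1 - t := by linarith
      positivity
    · simp [z', d, hwS v hv, hzS v hv]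
    · have h1 : ∑ v, z' v = ∑ v, z v + t * (∑ v, w v / W - ∑ v, z v) := by
        simp only [z', d, sum_add_distrib, ← mul_sum, sum_sub_distrib]
      rw [h1, ← sum_div, hz1, ← hW, div_self hWpos.ne']; ring
  have hmin : F z ≤ F z' := hzmin hz'K
  have hpay' : ∀ x, pay a z' x = pay a z x + t * pay a d x := fun x => by
    simp only [pay, z', mul_sum, ← sum_add_distrib]
    exact sum_congr rfl fun y _ => by ring
  have hFz' : F z' ≤ Q + 2 * t * (-Q) + t ^ 2 * D := by
    have h1 : ∀ x ∈ S, (max (pay a z' x) 0) ^ 2 ≤ (w x + t * pay a d x) ^ 2 := fun x hx => by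
      have hwx : w x = max (pay a z x) 0 := by simp [w, hx]
      rw [hpay', hwx]
      rcases le_total (pay a z x + t * pay a d x) 0 with h2 | h2
      · rw [max_eq_right h2]; nlinarith [sq_nonneg (max (pay a z x) 0 + t * pay a d x)]
      · rw [max_eq_left h2]
        have h3 : pay a z x ≤ max (pay a z x) 0 := le_max_left _ _
        nlinarith
    calc F z' ≤ ∑ x ∈ S, (w x + t * pay a d x) ^ 2 := sum_le_sum h1
      _ = ∑ x ∈ S, (w x) ^ 2 + 2 * t * ∑ x ∈ S, w x * pay a d x + t ^ 2 * D := by
          rw [hD, mul_sum, mul_sum, ← sum_add_distrib, ← sum_add_distrib]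
          exact sum_congr rfl fun x _ => by ring
      _ = Q + 2 * t * (-Q) + t ^ 2 * D := by
          rw [← hwd, hQ]
          rw [← sum_subset (subset_univ S) (f := fun x => (w x) ^ 2)
            (fun x _ hx => by rw [hwS x hx]; ring),
            ← sum_subset (subset_univ S) (f := fun x => w x * pay a d x)
            (fun x _ hx => by rw [hwS x hx]; ring)]
  rw [hFz] at hmin
  nlinarith

/-- complementary slackness -/
lemma Opt.pay_eq {a : V → V → ℤ} (h : IsSign a) {S : Finset V} {z : V → ℝ} (hz : Opt a S z)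
    {x : V} (hx : z x ≠ 0) : pay a z x = 0 := by
  have h0 := sum_mul_pay_self h z
  have hle : ∀ v ∈ (univ : Finset V), z v * pay a z v ≤ 0 := fun v _ => by
    by_cases hv : v ∈ S
    · exact mul_nonpos_of_nonneg_of_nonpos (hz.nonneg v) (hz.le v hv)
    · rw [hz.supp v hv, zero_mul]
  have := (sum_eq_zero_iff_of_nonpos hle).1 h0 x (mem_univ x)
  rcases mul_eq_zero.1 this with h1 | h1
  · exact absurd h1 hx
  · exact h1

lemma Opt.mem {a : V → V → ℤ} {S : Finset V} {z : V → ℝ} (hz : Opt a S z)
    {x : V} (hx : z x ≠ 0) : x ∈ S := by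
  by_contra hc
  exact hx (hz.supp x hc)

/-- Outside the support the pay-off is not zero. -/
lemma Opt.ne_of_pay {a : V → V → ℤ} (h : IsSign a) {S : Finset V} {z : V → ℝ} (hz : Opt a S z)
    {x : V} (hxS : x ∈ S) (hx : pay a z x = 0) : z x ≠ 0 := by
  classical
  intro hzx
  obtain ⟨v0, hv0⟩ := hz.ne
  let Z := S.filter fun v => pay a z v = 0
  have hsupp : ∀ v, z v ≠ 0 → v ∈ Z := fun v hv =>
    mem_filter.2 ⟨hz.mem hv, hz.pay_eq h hv⟩
  rcases Nat.even_or_odd Z.card with he | ho
  · exact hv0 (even_nonsing h he (fun v hv => by_contra fun hc => hv (hsupp v hc))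
      (fun y hy => (mem_filter.1 hy).2) v0)
  · have hxZ : x ∈ Z := mem_filter.2 ⟨hxS, hx⟩
    have he : Even (Z.erase x).card := by
      rw [card_erase_of_mem hxZ]
      obtain ⟨r, hr⟩ := ho
      rw [hr]; simp
    refine hv0 (even_nonsing h he (fun v hv => by_contra fun hc => hv ?_)
      (fun y hy => (mem_filter.1 (mem_of_mem_erase hy)).2) v0)
    refine mem_erase.2 ⟨?_, hsupp v hc⟩
    rintro rfl
    exact hc hzx

/-- Two optimal strategies have the same support. -/
lemma Opt.supp_eq {a : V → V → ℤ} (h : IsSign a) {S : Finset V} {z w : V → ℝ} (hz : Opt a S z)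
    (hw : Opt a S w) {x : V} (hx : z x ≠ 0) : w x ≠ 0 := by
  have h0 := sum_mul_pay h w z
  have hle1 : ∀ v ∈ (univ : Finset V), z v * pay a w v ≤ 0 := fun v _ => by
    by_cases hv : v ∈ S
    · exact mul_nonpos_of_nonneg_of_nonpos (hz.nonneg v) (hw.le v hv)
    · rw [hz.supp v hv, zero_mul]
  have hle2 : ∑ v, w v * pay a z v ≤ 0 := sum_nonpos fun v _ => by
    by_cases hv : v ∈ S
    · exact mul_nonpos_of_nonneg_of_nonpos (hw.nonneg v) (hz.le v hv)
    · rw [hw.supp v hv, zero_mul]
  have hsum0 : ∑ v, z v * pay a w v = 0 :=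
    le_antisymm (sum_nonpos hle1) (by linarith)
  have := (sum_eq_zero_iff_of_nonpos hle1).1 hsum0 x (mem_univ x)
  rcases mul_eq_zero.1 this with h1 | h1
  · exact absurd h1 hx
  · exact hw.ne_of_pay h (hz.mem hx) h1

/-- `z` is a positive kernel vector on `W` -/
structure Ker (a : V → V → ℤ) (W : Finset V) (z : V → ℝ) : Prop where
  pos : ∀ v ∈ W, 0 < z v
  supp : ∀ v, v ∉ W → z v = 0
  zero : ∀ x ∈ W, pay a z x = 0

/-- positive sets of vertices -/
def Pos (a : V → V → ℤ) (W : Finset V) : Prop := W.Nonempty ∧ ∃ z, Ker a W z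

lemma Pos.odd {a : V → V → ℤ} (h : IsSign a) {W : Finset V} (hW : Pos a W) : Odd W.card := by
  obtain ⟨⟨v, hv⟩, z, hz⟩ := hW
  by_contra hc
  rw [Nat.not_odd_iff_even] at hc
  exact (hz.pos v hv).ne' (even_nonsing h hc hz.supp hz.zero v)

lemma Ker.pay_ne {a : V → V → ℤ} (h : IsSign a) {W : Finset V} (hW : W.Nonempty) {z : V → ℝ}
    (hz : Ker a W z) {x : V} (hx : x ∉ W) : pay a z x ≠ 0 := by
  classical
  intro hc
  have hodd : Odd W.card := Pos.odd h ⟨hW, z, hz⟩
  obtain ⟨v, hv⟩ := hW
  have he : Even (insert x W).card := by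
    rw [card_insert_of_notMem hx]
    exact hodd.add_one
  refine (hz.pos v hv).ne' (even_nonsing h he (fun u hu => hz.supp u
    (fun hu' => hu (mem_insert_of_mem hu'))) (fun u hu => ?_) v)
  rcases mem_insert.1 hu with rfl | hu
  · exact hc
  · exact hz.zero u hu

omit [DecidableEq V] in
lemma pay_comb (a : V → V → ℤ) (p q : ℝ) (z w : V → ℝ) (x : V) :
    pay a (fun v => p * z v + q * w v) x = p * pay a z x + q * pay a w x := by
  simp only [pay, mul_sum, ← sum_add_distrib]
  exact sum_congr rfl fun u _ => by ring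

lemma Ker.neg_of_neg {a : V → V → ℤ} (h : IsSign a) {W : Finset V} (hW : W.Nonempty)
    {z w : V → ℝ} (hz : Ker a W z) (hw : Ker a W w) {x : V} (hx : x ∉ W)
    (hn : pay a z x < 0) : pay a w x < 0 := by
  classical
  by_contra hc
  have hpos : 0 < pay a w x := lt_of_le_of_ne (not_lt.1 hc) (hw.pay_ne h hW hx).symm
  -- the combination with zero pay-off at `x`
  have hcomb : Ker a W (fun v => pay a w x * z v + (- pay a z x) * w v) := by
    refine ⟨fun v hv => ?_, fun v hv => ?_, fun y hy => ?_⟩
    · have h1 := mul_pos hpos (hz.pos v hv)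
      have h2 := mul_pos (neg_pos.2 hn) (hw.pos v hv)
      linarith
    · rw [hz.supp v hv, hw.supp v hv]; ring
    · rw [pay_comb, hz.zero y hy, hw.zero y hy]; ring
  refine hcomb.pay_ne h hW hx ?_
  rw [pay_comb]; ring

open Classical in
/-- The vertices beaten by the positive set `W`. -/
noncomputable def dom (a : V → V → ℤ) (W : Finset V) : Finset V :=
  univ.filter fun x => x ∉ W ∧ ∃ z, Ker a W z ∧ pay a z x < 0

lemma dom_disjoint (a : V → V → ℤ) (W : Finset V) : Disjoint W (dom a W) := by
  classical
  rw [disjoint_left]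
  intro x hx hx'
  exact (mem_filter.1 hx').2.1 hx

/-- Every nonempty set has exactly one positive subset which beats all other vertices. -/
lemma existsUnique_support {a : V → V → ℤ} (h : IsSign a) {S : Finset V} (hS : S.Nonempty) :
    ∃! W, Pos a W ∧ W ⊆ S ∧ S ⊆ W ∪ dom a W := by
  classical
  -- the strategies attached to such a `W`
  have key : ∀ W, Pos a W ∧ W ⊆ S ∧ S ⊆ W ∪ dom a W → ∃ z, Opt a S z ∧ ∀ v, z v ≠ 0 ↔ v ∈ W := by
    rintro W ⟨⟨hWn, z, hz⟩, hWS, hSW⟩
    have hiff : ∀ v, z v ≠ 0 ↔ v ∈ W := fun v =>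
      ⟨fun hv => by_contra fun hc => hv (hz.supp v hc), fun hv => (hz.pos v hv).ne'⟩
    refine ⟨z, ⟨fun v => ?_, fun v hv => hz.supp v fun hc => hv (hWS hc), ?_, fun x hx => ?_⟩, hiff⟩
    · by_cases hv : v ∈ W
      · exact (hz.pos v hv).le
      · rw [hz.supp v hv]
    · obtain ⟨v, hv⟩ := hWn
      exact ⟨v, (hz.pos v hv).ne'⟩
    · by_cases hxW : x ∈ W
      · rw [hz.zero x hxW]
      · rcases mem_union.1 (hSW hx) with h1 | h1
        · exact absurd h1 hxW
        · obtain ⟨_, z', hz', hneg⟩ := (mem_filter.1 h1).2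
          exact (hz'.neg_of_neg h hWn hz hxW hneg).le
  obtain ⟨z, hz⟩ := exists_opt h hS
  refine ⟨univ.filter fun v => z v ≠ 0, ⟨⟨?_, z, ?_, ?_, ?_⟩, ?_, ?_⟩, ?_⟩
  · obtain ⟨v, hv⟩ := hz.ne
    exact ⟨v, by simpa using hv⟩
  · intro v hv
    exact lt_of_le_of_ne (hz.nonneg v) (mem_filter.1 hv).2.symm
  · intro v hv
    by_contra hc
    exact hv (by simpa using hc)
  · intro x hx
    exact hz.pay_eq h (mem_filter.1 hx).2
  · intro v hv
    exact hz.mem (mem_filter.1 hv).2
  · intro v hv
    by_cases hzv : z v = 0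
    · refine mem_union_right _ (mem_filter.2 ⟨mem_univ v, by simpa using hzv, z, ⟨?_, ?_, ?_⟩, ?_⟩)
      · intro u hu
        exact lt_of_le_of_ne (hz.nonneg u) (mem_filter.1 hu).2.symm
      · intro u hu
        by_contra hc
        exact hu (by simpa using hc)
      · intro x hx
        exact hz.pay_eq h (mem_filter.1 hx).2
      · exact lt_of_le_of_ne (hz.le v hv) fun hc => hz.ne_of_pay h hv hc hzv
    · exact mem_union_left _ (by simpa using hzv)
  · intro W hW
    obtain ⟨w, hw, hiff⟩ := key W hW
    ext v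
    rw [← hiff v]
    simp only [mem_filter, mem_univ, true_and]
    exact ⟨fun hv => hw.supp_eq h hz hv, fun hv => hz.supp_eq h hw hv⟩

open Classical in
/-- The number of pairs (set, support). -/
lemma card_eq_sum {a : V → V → ℤ} (h : IsSign a) {M : ℕ} (hM : 0 < M) :
    (Fintype.card V).choose M = ∑ W ∈ (univ : Finset (Finset V)).filter (Pos a),
      if W.card ≤ M then (dom a W).card.choose (M - W.card) else 0 := by
  classical
  have h1 : ∀ S ∈ (univ : Finset V).powersetCard M,
      (1 : ℕ) = ∑ W ∈ (univ : Finset (Finset V)).filter (Pos a),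
        if W ⊆ S ∧ S ⊆ W ∪ dom a W then 1 else 0 := by
    intro S hS
    have hSn : S.Nonempty := by
      rw [← card_pos, (mem_powersetCard.1 hS).2]; exact hM
    obtain ⟨W, ⟨hWp, hW1, hW2⟩, huniq⟩ := existsUnique_support h hSn
    rw [sum_eq_single_of_mem W (by simp [hWp])]
    · simp [hW1, hW2]
    · intro W' hW' hne
      rw [if_neg]
      rintro ⟨h3, h4⟩
      exact hne (huniq W' ⟨(mem_filter.1 hW').2, h3, h4⟩)
  calc (Fintype.card V).choose M = ∑ S ∈ (univ : Finset V).powersetCard M, 1 := by
        rw [← card_eq_sum_ones, card_powersetCard, card_univ]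
    _ = ∑ S ∈ (univ : Finset V).powersetCard M,
        ∑ W ∈ (univ : Finset (Finset V)).filter (Pos a),
        if W ⊆ S ∧ S ⊆ W ∪ dom a W then 1 else 0 := sum_congr rfl h1
    _ = _ := by
        rw [sum_comm]
        refine sum_congr rfl fun W _ => ?_
        rw [← sum_filter, ← card_eq_sum_ones]
        split_ifs with hWM
        · rw [← card_powersetCard]
          refine card_bij' (fun S _ => S \ W) (fun Z _ => W ∪ Z) ?_ ?_ ?_ ?_
          · intro S hS
            rw [mem_filter, mem_powersetCard] at hS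
            rw [mem_powersetCard]
            refine ⟨?_, ?_⟩
            · intro v hv
              rw [mem_sdiff] at hv
              rcases mem_union.1 (hS.2.2 hv.1) with h3 | h3
              · exact absurd h3 hv.2
              · exact h3
            · rw [card_sdiff_of_subset hS.2.1, hS.1.2]
          · intro Z hZ
            rw [mem_powersetCard] at hZ
            rw [mem_filter, mem_powersetCard]
            refine ⟨⟨subset_univ _, ?_⟩, subset_union_left, union_subset_union_right hZ.1⟩
            rw [card_union_of_disjoint ((dom_disjoint a W).mono_right hZ.1), hZ.2]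
            omega
          · intro S hS
            rw [mem_filter] at hS
            exact union_sdiff_of_subset hS.2.1
          · intro Z hZ
            rw [mem_powersetCard] at hZ
            exact union_sdiff_cancel_left ((dom_disjoint a W).mono_right hZ.1)
        · rw [card_eq_zero, filter_eq_empty_iff]
          intro S hS hc
          rw [mem_powersetCard] at hS
          exact hWM (hS.2 ▸ card_le_card hc.1)

end Pool.Agent.Lib.MP_286abe_co
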