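import Mathlib
import Pool.Agent.Lib.MP_286abe_co.Game

/-!
# The number of positive sets of a given odd size
-/

namespace Pool.Agent.Lib.MP_286abe_co

open Finset

lemma choose_even_nonneg (t : ℤ) {k : ℕ} (hk : Even k) : 0 ≤ Ring.choose t k := by
  rcases le_or_gt 0 t with ht | ht
  · obtain ⟨n, rfl⟩ := Int.eq_ofNat_of_zero_le ht
    rw [Ring.choose_natCast]
    positivity
  · obtain ⟨n, hn⟩ := Int.eq_ofNat_of_zero_le (show 0 ≤ -t - 1 by omega)
    have h1 : t = -((n : ℤ) + 1) := by omega
    rw [h1, Ring.choose_neg, Int.negOnePow_even _ (by exact_mod_cast hk), one_smul]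
    have h2 : (n : ℤ) + 1 + k - 1 = ((n + k : ℕ) : ℤ) := by push_cast; ring
    rw [h2, Ring.choose_natCast]
    positivity

lemma choose_neg_odd (s : ℕ) {m : ℕ} (hm : Odd m) :
    Ring.choose (-(s : ℤ)) m = - ((s + m - 1).choose m : ℤ) := by
  have hm1 : 1 ≤ m := hm.pos
  rw [Ring.choose_neg, Int.negOnePow_odd _ (by exact_mod_cast hm)]
  have h2 : (s : ℤ) + m - 1 = ((s + m - 1 : ℕ) : ℤ) := by
    rw [Nat.cast_sub (by omega)]; push_cast; ring
  rw [h2, Ring.choose_natCast]
  simp

lemma sum_shift (g : ℕ → ℤ) (u : ℕ → ℤ) (k m : ℕ) :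
    ∑ p ∈ antidiagonal m, (if k ≤ p.1 then g (p.1 - k) else 0) * u p.2 =
      if k ≤ m then ∑ p ∈ antidiagonal (m - k), g p.1 * u p.2 else 0 := by
  split_ifs with hkm
  · have h1 : ∀ p ∈ antidiagonal m, (if k ≤ p.1 then g (p.1 - k) else 0) * u p.2 =
        if k ≤ p.1 then g (p.1 - k) * u p.2 else 0 := fun p _ => by
      split_ifs <;> simp
    rw [sum_congr rfl h1, ← sum_filter, Finset.Nat.antidiagonal_filter_le_fst_of_le hkm, sum_map]
    refine sum_congr rfl fun p _ => ?_
    simp
  · refine sum_eq_zero fun p hp => ?_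
    have := mem_antidiagonal.1 hp
    rw [if_neg (by omega), zero_mul]

variable {V : Type*} [Fintype V] [DecidableEq V]

open Classical in
/-- The exact formula. -/
lemma sum_choose_dom {a : V → V → ℤ} (h : IsSign a) (m : ℕ) (s : ℤ) :
    ∑ W ∈ (univ : Finset (Finset V)).filter (Pos a),
      (if W.card ≤ m then Ring.choose (((dom a W).card : ℤ) - s) (m - W.card) else 0) =
    Ring.choose ((Fintype.card V : ℤ) - s) m - Ring.choose (-s) m := by
  classical
  have h1 : ∀ W : Finset V,
      (if W.card ≤ m then Ring.choose (((dom a W).card : ℤ) - s) (m - W.card) else 0) =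
      ∑ p ∈ antidiagonal m,
        (if W.card ≤ p.1 then (((dom a W).card.choose (p.1 - W.card) : ℕ) : ℤ) else 0) *
          Ring.choose (-s) p.2 := fun W => by
    rw [sum_shift (fun i => (((dom a W).card.choose i : ℕ) : ℤ)) (fun j => Ring.choose (-s) j)]
    split_ifs with hW
    · rw [sub_eq_add_neg, Ring.add_choose_eq _ (Commute.all _ _)]
      refine sum_congr rfl fun p _ => ?_
      rw [Ring.choose_natCast]
    · rfl
  rw [sum_congr rfl fun W _ => h1 W, sum_comm]
  have h2 : ∀ p ∈ antidiagonal m,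
      ∑ W ∈ (univ : Finset (Finset V)).filter (Pos a),
        (if W.card ≤ p.1 then (((dom a W).card.choose (p.1 - W.card) : ℕ) : ℤ) else 0) *
          Ring.choose (-s) p.2 =
      (Ring.choose (Fintype.card V : ℤ) p.1 - if p.1 = 0 then 1 else 0) *
        Ring.choose (-s) p.2 := by
    intro p _
    rw [← sum_mul]
    congr 1
    rcases Nat.eq_zero_or_pos p.1 with h0 | h0
    · rw [h0]
      simp only [if_true, Ring.choose_zero_right, sub_self]
      refine sum_eq_zero fun W hW => ?_
      have hWn : W.Nonempty := (mem_filter.1 hW).2.1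
      rw [if_neg]
      rw [Nat.le_zero, card_eq_zero]
      exact hWn.ne_empty
    · rw [if_neg h0.ne', sub_zero, Ring.choose_natCast, card_eq_sum h h0]
      push_cast
      refine sum_congr rfl fun W _ => ?_
      split_ifs <;> simp
  rw [sum_congr rfl h2, sub_eq_add_neg (Fintype.card V : ℤ) s,
    Ring.add_choose_eq _ (Commute.all _ _)]
  simp only [sub_mul, sum_sub_distrib]
  congr 1
  rw [Finset.Nat.sum_antidiagonal_eq_sum_range_succ_mk]
  rw [sum_eq_single_of_mem 0 (by simp)]
  · simp
  · intro b _ hb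
    simp [hb]

open Classical in
lemma card_pos_le {a : V → V → ℤ} (h : IsSign a) {m : ℕ} (hm : Odd m) {s : ℕ}
    (hs : s ≤ Fintype.card V) :
    ((univ : Finset (Finset V)).filter fun W => Pos a W ∧ W.card = m).card ≤
      (Fintype.card V - s).choose m + (s + m - 1).choose m := by
  have h1 := sum_choose_dom h m (s : ℤ)
  have h2 : (((univ : Finset (Finset V)).filter fun W => Pos a W ∧ W.card = m).card : ℤ) ≤
      ∑ W ∈ (univ : Finset (Finset V)).filter (Pos a),
      (if W.card ≤ m then Ring.choose (((dom a W).card : ℤ) - (s : ℤ)) (m - W.card) else 0) := by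
    have h3 : (((univ : Finset (Finset V)).filter fun W => Pos a W ∧ W.card = m).card : ℤ) =
        ∑ W ∈ (univ : Finset (Finset V)).filter (Pos a), if W.card = m then 1 else 0 := by
      rw [← filter_filter, card_filter]
      push_cast
      rfl
    rw [h3]
    refine sum_le_sum fun W hW => ?_
    have hodd : Odd W.card := Pos.odd h (mem_filter.1 hW).2
    split_ifs with h4 h5 h5
    · rw [h4, Nat.sub_self, Ring.choose_zero_right]
    · exact absurd h4.le h5
    · exact choose_even_nonneg _ (Nat.Odd.sub_odd hm hodd)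
    · exact le_rfl
  rw [h1, choose_neg_odd s hm, ← Nat.cast_sub hs, Ring.choose_natCast] at h2
  have h4 : (((univ : Finset (Finset V)).filter fun W => Pos a W ∧ W.card = m).card : ℤ) ≤
    (((Fintype.card V - s).choose m + (s + m - 1).choose m : ℕ) : ℤ) := by
    push_cast
    linarith
  exact_mod_cast h4

end Pool.Agent.Lib.MP_286abe_co
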