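import Mathlib

/-!
# Tournaments, densities and tournament limits (definitions)
-/

namespace Pool.Agent.Lib.MP_286abe_co

/-- A tournament on the vertex set `Fin k`: no loops, and any two distinct vertices are joined by
exactly one arc (`adj u v` means that `(u, v)` is an arc). -/
structure Tournament (k : ℕ) where
  adj : Fin k → Fin k → Prop
  loopless : ∀ v, ¬ adj v v
  joined : ∀ u v, u ≠ v → (adj u v ↔ ¬ adj v u)

/-- The subtournament of `U` induced on the set of vertices `S` is isomorphic to `T`. -/
def IsInduced {k N : ℕ} (T : Tournament k) (U : Tournament N) (S : Finset (Fin N)) : Prop :=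
  ∃ f : Fin k ≃ S, ∀ u v, T.adj u v ↔ U.adj (f u) (f v)

open Classical in
/-- The density `p(T, U)`: the proportion of the `k`-subsets of the vertex set of `U` which induce
a subtournament isomorphic to `T` (and `0` if there are no such subsets). -/
noncomputable def density {k N : ℕ} (T : Tournament k) (U : Tournament N) : ℝ :=
  (((Finset.univ : Finset (Fin N)).powersetCard k).filter fun S => IsInduced T U S).card /
    (N.choose k : ℝ)

/-- The sequence of tournaments `U 0, U 1, ...` on `N 0, N 1, ...` vertices is convergent (the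
number of vertices is increasing, and the density of every tournament converges) with limit `φ`. -/
def ConvergesTo (N : ℕ → ℕ) (U : (m : ℕ) → Tournament (N m))
    (φ : (k : ℕ) → Tournament k → ℝ) : Prop :=
  StrictMono N ∧ ∀ (k : ℕ) (T : Tournament k),
    Filter.Tendsto (fun m => density T (U m)) Filter.atTop (nhds (φ k T))

/-- The set of all limits of convergent sequences of tournaments. -/
def limits : Set ((k : ℕ) → Tournament k → ℝ) :=
  {φ | ∃ (N : ℕ → ℕ) (U : (m : ℕ) → Tournament (N m)), ConvergesTo N U φ}

/-- The carousel tournament `R_{2n+1}`: its vertices are `0, ..., 2n`, and its arcs are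
`(x, (x + i) mod (2n+1))` for `i = 1, ..., n`. -/
def carousel (n : ℕ) : Tournament (2 * n + 1) where
  adj x y := ∃ i : ℕ, 1 ≤ i ∧ i ≤ n ∧ (y : ℕ) = ((x : ℕ) + i) % (2 * n + 1)
  loopless := by
    rintro ⟨v, hv⟩ ⟨i, h1, h2, h3⟩
    simp only at h3
    rcases lt_or_ge (v + i) (2 * n + 1) with h | h
    · rw [Nat.mod_eq_of_lt h] at h3; omega
    · rw [Nat.mod_eq_sub_mod h, Nat.mod_eq_of_lt (by omega)] at h3; omega
  joined := by
    rintro ⟨u, hu⟩ ⟨v, hv⟩ huv
    have huv' : u ≠ v := fun h => huv (by simp [h])
    constructor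
    · rintro ⟨i, h1, h2, h3⟩ ⟨j, h4, h5, h6⟩
      simp only at h3 h6
      rcases lt_or_ge (u + i) (2 * n + 1) with h | h <;>
        rcases lt_or_ge (v + j) (2 * n + 1) with h' | h'
      · rw [Nat.mod_eq_of_lt h] at h3; rw [Nat.mod_eq_of_lt h'] at h6; omega
      · rw [Nat.mod_eq_of_lt h] at h3
        rw [Nat.mod_eq_sub_mod h', Nat.mod_eq_of_lt (by omega)] at h6; omega
      · rw [Nat.mod_eq_sub_mod h, Nat.mod_eq_of_lt (by omega)] at h3
        rw [Nat.mod_eq_of_lt h'] at h6; omega
      · rw [Nat.mod_eq_sub_mod h, Nat.mod_eq_of_lt (by omega)] at h3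
        rw [Nat.mod_eq_sub_mod h', Nat.mod_eq_of_lt (by omega)] at h6; omega
    · intro hn
      simp only at hn ⊢
      by_contra hc
      rcases lt_or_gt_of_ne huv' with h | h
      · by_cases hle : v - u ≤ n
        · exact hc ⟨v - u, by omega, hle, by rw [Nat.mod_eq_of_lt (by omega)]; omega⟩
        · refine hn ⟨u + (2 * n + 1) - v, by omega, by omega, ?_⟩
          rw [Nat.mod_eq_sub_mod (by omega), Nat.mod_eq_of_lt (by omega)]; omega
      · by_cases hle : u - v ≤ n
        · exact hn ⟨u - v, by omega, hle, by rw [Nat.mod_eq_of_lt (by omega)]; omega⟩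
        · refine hc ⟨v + (2 * n + 1) - u, by omega, by omega, ?_⟩
          rw [Nat.mod_eq_sub_mod (by omega), Nat.mod_eq_of_lt (by omega)]; omega

/-- The carousel homomorphism: the limit of the densities in the carousel tournaments. -/
noncomputable def carouselLimit (k : ℕ) (T : Tournament k) : ℝ :=
  Filter.limUnder Filter.atTop (fun m : ℕ => density T (carousel m))

end Pool.Agent.Lib.MP_286abe_co
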