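import Mathlib
import Pool.Agent.Lib.MP_286abe_co.Defs
import Pool.Agent.Lib.MP_286abe_co.Count

/-!
# The upper bound for the density of carousel tournaments
-/

namespace Pool.Agent.Lib.MP_286abe_co

open Finset Filter Topology

open Classical in
/-- the sign matrix of a tournament -/
noncomputable def sgn {k : ℕ} (U : Tournament k) (x y : Fin k) : ℤ :=
  if U.adj x y then 1 else if U.adj y x then -1 else 0

lemma sgn_isSign {k : ℕ} (U : Tournament k) : IsSign (sgn U) := by
  constructor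
  · intro x y
    rcases eq_or_ne x y with rfl | hxy
    · simp [sgn, U.loopless]
    · have h := U.joined x y hxy
      unfold sgn
      by_cases h1 : U.adj x y
      · have h2 := h.1 h1
        simp [h1, h2]
      · have h2 : U.adj y x := by by_contra hc; exact h1 (h.2 hc)
        simp [h1, h2]
  · intro x y hxy
    have h := U.joined x y hxy
    unfold sgn
    by_cases h1 : U.adj x y
    · left; simp [h1]
    · have h2 : U.adj y x := by by_contra hc; exact h1 (h.2 hc)
      right; simp [h1, h2]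

lemma carousel_adj_iff (n : ℕ) (x y : Fin (2 * n + 1)) :
    (carousel n).adj x y ↔ 1 ≤ (y - x).val ∧ (y - x).val ≤ n := by
  obtain ⟨x, hx⟩ := x
  obtain ⟨y, hy⟩ := y
  have hval : ((⟨y, hy⟩ : Fin (2 * n + 1)) - ⟨x, hx⟩).val = (2 * n + 1 - x + y) % (2 * n + 1) := rfl
  rw [hval]
  change (∃ i : ℕ, 1 ≤ i ∧ i ≤ n ∧ y = (x + i) % (2 * n + 1)) ↔ _
  rcases lt_or_ge y x with h | h
  · rw [Nat.mod_eq_of_lt (show 2 * n + 1 - x + y < 2 * n + 1 by omega)]
    constructor
    · rintro ⟨i, h1, h2, h3⟩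
      rcases lt_or_ge (x + i) (2 * n + 1) with h4 | h4
      · rw [Nat.mod_eq_of_lt h4] at h3; omega
      · rw [Nat.mod_eq_sub_mod h4, Nat.mod_eq_of_lt (by omega)] at h3; omega
    · rintro ⟨h1, h2⟩
      refine ⟨2 * n + 1 - x + y, h1, h2, ?_⟩
      rw [Nat.mod_eq_sub_mod (by omega), Nat.mod_eq_of_lt (by omega)]; omega
  · rw [Nat.mod_eq_sub_mod (show 2 * n + 1 - x + y ≥ 2 * n + 1 by omega),
      Nat.mod_eq_of_lt (by omega)]
    constructor
    · rintro ⟨i, h1, h2, h3⟩
      rcases lt_or_ge (x + i) (2 * n + 1) with h4 | h4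
      · rw [Nat.mod_eq_of_lt h4] at h3; omega
      · rw [Nat.mod_eq_sub_mod h4, Nat.mod_eq_of_lt (by omega)] at h3; omega
    · rintro ⟨h1, h2⟩
      refine ⟨y - x, by omega, by omega, ?_⟩
      rw [Nat.mod_eq_of_lt (by omega)]; omega

lemma carousel_sum (n : ℕ) (x : Fin (2 * n + 1)) : ∑ y, sgn (carousel n) x y = 0 := by
  have h1 : ∑ y, sgn (carousel n) x y = ∑ y, sgn (carousel n) x (x + x - y) :=
    (Equiv.sum_comp (Equiv.subLeft (x + x)) (fun y => sgn (carousel n) x y)).symm
  have h2 : ∀ y, sgn (carousel n) x (x + x - y) = - sgn (carousel n) x y := by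
    intro y
    rw [(sgn_isSign (carousel n)).skew x y, neg_neg]
    unfold sgn
    simp only [carousel_adj_iff]
    have e1 : x + x - y - x = x - y := by abel
    have e2 : x - (x + x - y) = y - x := by abel
    rw [e1, e2]
  simp only [h2, sum_neg_distrib] at h1
  omega

lemma isInduced_pos {n N : ℕ} {U : Tournament N} {S : Finset (Fin N)}
    (h : IsInduced (carousel n) U S) : Pos (sgn U) S := by
  classical
  obtain ⟨f, hf⟩ := h
  refine ⟨⟨f 0, (f 0).2⟩, fun v => if v ∈ S then 1 else 0, ?_, ?_, ?_⟩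
  · intro v hv; simp [hv]
  · intro v hv; simp [hv]
  · intro x hx
    have hs : ∀ i j, sgn U (f i) (f j) = sgn (carousel n) i j := fun i j => by
      unfold sgn; simp only [hf]
    simp only [pay, mul_ite, mul_one, mul_zero]
    rw [← sum_filter, filter_mem_eq_inter, univ_inter, ← sum_coe_sort]
    rw [← Equiv.sum_comp f (fun v : S => ((sgn U x v : ℤ) : ℝ))]
    obtain ⟨i, hi⟩ := f.surjective ⟨x, hx⟩
    have hxi : x = (f i : Fin N) := by rw [hi]
    rw [hxi]
    simp only [hs]
    rw [← Int.cast_sum, carousel_sum, Int.cast_zero]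

lemma density_carousel_le {n N : ℕ} (U : Tournament N) {s : ℕ} (hs : s ≤ N) :
    density (carousel n) U ≤
      (((N - s).choose (2 * n + 1) : ℕ) + ((s + (2 * n + 1) - 1).choose (2 * n + 1) : ℕ) : ℝ) /
        (N.choose (2 * n + 1) : ℝ) := by
  classical
  unfold density
  gcongr
  have h1 := card_pos_le (sgn_isSign U) (m := 2 * n + 1) (odd_two_mul_add_one n) (s := s)
    (by simpa using hs)
  rw [Fintype.card_fin] at h1
  refine le_trans ?_ (show (((univ.filter fun W => Pos (sgn U) W ∧ W.card = 2 * n + 1).card : ℕ) : ℝ)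
    ≤ _ from by exact_mod_cast h1)
  norm_cast
  refine card_le_card fun S hS => ?_
  rw [mem_filter] at hS ⊢
  exact ⟨mem_univ _, isInduced_pos hS.2, (mem_powersetCard.1 hS.1).2⟩

lemma choose_ratio_tendsto (k : ℕ) (g : ℕ → ℕ)
    (hg : Tendsto (fun N => (g N : ℝ) / N) atTop (𝓝 (1 / 2))) :
    Tendsto (fun N : ℕ => ((g N).choose k : ℝ) / (N.choose k : ℝ)) atTop (𝓝 ((1 / 2) ^ k)) := by
  have hgt : Tendsto g atTop atTop := by
    rw [← tendsto_natCast_atTop_iff (R := ℝ)]
    have h1 : Tendsto (fun N : ℕ => (g N : ℝ) / N * N) atTop atTop :=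
      hg.pos_mul_atTop (by norm_num) tendsto_natCast_atTop_atTop
    refine h1.congr' ?_
    filter_upwards [eventually_gt_atTop 0] with N hN
    have : (N : ℝ) ≠ 0 := by exact_mod_cast hN.ne'
    field_simp
  have h2 := (isEquivalent_choose k).comp_tendsto hgt
  have h3 := h2.div (isEquivalent_choose k)
  refine h3.symm.tendsto_nhds ?_
  have h4 := hg.pow k
  refine h4.congr' ?_
  filter_upwards [eventually_gt_atTop 0] with N hN
  have hN' : (N : ℝ) ≠ 0 := by exact_mod_cast hN.ne'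
  have hk : ((k.factorial : ℕ) : ℝ) ≠ 0 := by exact_mod_cast k.factorial_ne_zero
  simp only [Function.comp_apply, Pi.div_apply, div_pow]
  field_simp

lemma div_tendsto_half (g : ℕ → ℕ) (c : ℕ) (h1 : ∀ N, 2 * g N ≤ N + c) (h2 : ∀ N, N ≤ 2 * g N + c) :
    Tendsto (fun N => (g N : ℝ) / N) atTop (𝓝 (1 / 2)) := by
  have hc : Tendsto (fun N : ℕ => (c : ℝ) / N) atTop (𝓝 0) :=
    tendsto_const_div_atTop_nhds_zero_nat (c : ℝ)
  have hlo : Tendsto (fun N : ℕ => (1 / 2 : ℝ) - (c : ℝ) / N) atTop (𝓝 (1 / 2)) := by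
    simpa using tendsto_const_nhds.sub hc
  have hhi : Tendsto (fun N : ℕ => (1 / 2 : ℝ) + (c : ℝ) / N) atTop (𝓝 (1 / 2)) := by
    simpa using tendsto_const_nhds.add hc
  refine tendsto_of_tendsto_of_tendsto_of_le_of_le' hlo hhi ?_ ?_
  · filter_upwards [eventually_gt_atTop 0] with N hN
    have hN' : (0 : ℝ) < N := by exact_mod_cast hN
    have h := h2 N
    have h' : (N : ℝ) ≤ 2 * g N + c := by exact_mod_cast h
    have hc0 : (0 : ℝ) ≤ c := Nat.cast_nonneg c
    rw [sub_le_iff_le_add, ← add_div, le_div_iff₀ hN']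
    linarith
  · filter_upwards [eventually_gt_atTop 0] with N hN
    have hN' : (0 : ℝ) < N := by exact_mod_cast hN
    have h := h1 N
    have h' : 2 * (g N : ℝ) ≤ N + c := by exact_mod_cast h
    have hc0 : (0 : ℝ) ≤ c := Nat.cast_nonneg c
    rw [div_le_iff₀ hN', add_mul, div_mul_cancel₀ _ hN'.ne']
    linarith

lemma limit_carousel_le {N : ℕ → ℕ} {U : (m : ℕ) → Tournament (N m)}
    {φ : (k : ℕ) → Tournament k → ℝ} (h : ConvergesTo N U φ) (n : ℕ) :
    φ (2 * n + 1) (carousel n) ≤ (1 / 4) ^ n := by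
  have h1 := h.2 (2 * n + 1) (carousel n)
  have h2 : Tendsto (fun M : ℕ => (((M - M / 2).choose (2 * n + 1) : ℕ) +
      ((M / 2 + (2 * n + 1) - 1).choose (2 * n + 1) : ℕ) : ℝ) / (M.choose (2 * n + 1) : ℝ)) atTop
      (𝓝 ((1 / 4) ^ n)) := by
    have e1 := choose_ratio_tendsto (2 * n + 1) (fun M => M - M / 2)
      (div_tendsto_half _ 1 (fun M => by omega) (fun M => by omega))
    have e2 := choose_ratio_tendsto (2 * n + 1) (fun M => M / 2 + (2 * n + 1) - 1)
      (div_tendsto_half _ (4 * n + 2) (fun M => by omega) (fun M => by omega))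
    have e3 := e1.add e2
    have e4 : (1 / 2 : ℝ) ^ (2 * n + 1) + (1 / 2) ^ (2 * n + 1) = (1 / 4) ^ n := by
      rw [pow_succ, pow_mul]; norm_num; ring
    rw [e4] at e3
    refine e3.congr fun M => ?_
    rw [← add_div]
  have h3 := h2.comp h.1.tendsto_atTop
  refine le_of_tendsto_of_tendsto' h1 h3 fun m => ?_
  exact density_carousel_le (U m) (Nat.div_le_self _ _)

end Pool.Agent.Lib.MP_286abe_co
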