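import Mathlib
import Pool.Agent.Lib.MP_286abe_co.Upper

/-!
# Convergence of the sequence of carousel tournaments
-/

namespace Pool.Agent.Lib.MP_286abe_co

open Finset Filter Topology

/-- The tournament on `0, ..., N-1` in which, for `x < y`, the arc goes from `x` to `y` if and only
if `y - x` is even. -/
def line (N : ℕ) : Tournament N where
  adj x y := (x.val < y.val ∧ (x.val + y.val) % 2 = 0) ∨ (y.val < x.val ∧ (x.val + y.val) % 2 = 1)
  loopless := by intro v h; omega
  joined := by
    intro u v huv
    have : u.val ≠ v.val := fun h => huv (Fin.ext h)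
    omega

/-- The tournament with prescribed parities. -/
def pat {k : ℕ} (b : Fin k → Bool) : Tournament k where
  adj i j := (i < j ∧ b i = b j) ∨ (j < i ∧ b i ≠ b j)
  loopless := by intro v h; simp at h
  joined := by
    intro u v huv
    rcases lt_or_gt_of_ne huv with h | h
    · have h' : ¬ v < u := not_lt.2 h.le
      simp [h, h', eq_comm]
    · have h' : ¬ u < v := not_lt.2 h.le
      simp [h, h', eq_comm]

/-- isomorphic tournaments -/
def Iso {k : ℕ} (T U : Tournament k) : Prop :=
  ∃ e : Fin k ≃ Fin k, ∀ u v, T.adj u v ↔ U.adj (e u) (e v)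

lemma Iso.trans {k : ℕ} {T U W : Tournament k} (h : Iso T U) (h' : Iso U W) : Iso T W := by
  obtain ⟨e, he⟩ := h
  obtain ⟨f, hf⟩ := h'
  exact ⟨e.trans f, fun u v => (he u v).trans (hf _ _)⟩

lemma Iso.symm {k : ℕ} {T U : Tournament k} (h : Iso T U) : Iso U T := by
  obtain ⟨e, he⟩ := h
  exact ⟨e.symm, fun u v => by rw [he]; simp⟩

lemma Iso.refl {k : ℕ} (T : Tournament k) : Iso T T := ⟨Equiv.refl _, fun _ _ => Iff.rfl⟩

/-- doubling modulo `2m+1` -/
def dbl (m : ℕ) (x : Fin (2 * m + 1)) : Fin (2 * m + 1) :=
  if h : 2 * x.val < 2 * m + 1 then ⟨2 * x.val, h⟩ else ⟨2 * x.val - (2 * m + 1), by omega⟩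

lemma dbl_val (m : ℕ) (x : Fin (2 * m + 1)) :
    (dbl m x).val = if 2 * x.val < 2 * m + 1 then 2 * x.val else 2 * x.val - (2 * m + 1) := by
  unfold dbl; split_ifs <;> rfl

lemma dbl_injective (m : ℕ) : Function.Injective (dbl m) := by
  intro x y h
  have h' := congrArg Fin.val h
  rw [dbl_val, dbl_val] at h'
  apply Fin.ext
  have := x.2; have := y.2
  split_ifs at h' <;> omega

lemma iso_line (m : ℕ) : Iso (carousel m) (line (2 * m + 1)) := by
  refine ⟨Equiv.ofBijective (dbl m) (Finite.injective_iff_bijective.1 (dbl_injective m)), ?_⟩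
  intro x y
  rw [carousel_adj_iff]
  simp only [Equiv.ofBijective_apply, line, dbl_val]
  have hx := x.2; have hy := y.2
  have hval : (y - x).val = (2 * m + 1 - x.val + y.val) % (2 * m + 1) := rfl
  rw [hval]
  rcases lt_or_ge y.val x.val with h | h
  · rw [Nat.mod_eq_of_lt (show 2 * m + 1 - x.val + y.val < 2 * m + 1 by omega)]
    split_ifs <;> omega
  · rw [Nat.mod_eq_sub_mod (show 2 * m + 1 - x.val + y.val ≥ 2 * m + 1 by omega),
      Nat.mod_eq_of_lt (by omega)]
    split_ifs <;> omega

lemma isInduced_map {k N : ℕ} (T : Tournament k) {U U' : Tournament N} (e : Fin N ≃ Fin N)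
    (he : ∀ u v, U.adj u v ↔ U'.adj (e u) (e v)) (S : Finset (Fin N)) (h : IsInduced T U S) :
    IsInduced T U' (S.map e.toEmbedding) := by
  obtain ⟨f, hf⟩ := h
  refine ⟨f.trans (Equiv.subtypeEquiv e (fun x => by simp)), fun u v => ?_⟩
  rw [hf, he]
  rfl

lemma density_iso {k N : ℕ} (T : Tournament k) {U U' : Tournament N} (h : Iso U U') :
    density T U = density T U' := by
  classical
  have key : ∀ {U U' : Tournament N}, Iso U U' →
      (((univ : Finset (Fin N)).powersetCard k).filter fun S => IsInduced T U S).card ≤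
      (((univ : Finset (Fin N)).powersetCard k).filter fun S => IsInduced T U' S).card := by
    intro U U' h
    obtain ⟨e, he⟩ := h
    refine card_le_card_of_injOn (fun S => S.map e.toEmbedding) ?_ ?_
    · intro S hS
      rw [mem_coe, mem_filter, mem_powersetCard] at hS ⊢
      exact ⟨⟨subset_univ _, by rw [card_map]; exact hS.1.2⟩, isInduced_map T e he S hS.2⟩
    · intro S _ S' _ hSS
      exact map_injective _ hSS
  unfold density
  rw [le_antisymm (key h) (key h.symm)]

/-- increasing sequences -/
def SM (k N : ℕ) : Finset (Fin k → Fin N) := by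
  classical exact univ.filter fun y => StrictMono y

lemma mem_SM {k N : ℕ} {y : Fin k → Fin N} : y ∈ SM k N ↔ StrictMono y := by
  classical
  unfold SM
  rw [mem_filter]
  simp

lemma card_filter_powersetCard {k N : ℕ} (P : Finset (Fin N) → Prop) [DecidablePred P]
    [DecidablePred fun y : Fin k → Fin N => P (univ.image y)] :
    (((univ : Finset (Fin N)).powersetCard k).filter P).card =
      ((SM k N).filter fun y => P (univ.image y)).card := by
  classical
  symm
  refine card_bij (fun y _ => univ.image y) ?_ ?_ ?_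
  · intro y hy
    rw [mem_filter, mem_SM] at hy
    rw [mem_filter, mem_powersetCard]
    refine ⟨⟨subset_univ _, ?_⟩, hy.2⟩
    rw [card_image_of_injective _ hy.1.injective, card_univ, Fintype.card_fin]
  · intro y hy y' hy' h
    rw [mem_filter, mem_SM] at hy hy'
    have hc : (univ.image y).card = k := by
      rw [card_image_of_injective _ hy.1.injective, card_univ, Fintype.card_fin]
    have h1 := orderEmbOfFin_unique hc (f := y) (fun x => mem_image_of_mem _ (mem_univ x)) hy.1
    have h2 := orderEmbOfFin_unique hc (f := y')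
      (fun x => by rw [h]; exact mem_image_of_mem _ (mem_univ x)) hy'.1
    rw [h1, h2]
  · intro S hS
    rw [mem_filter, mem_powersetCard] at hS
    have himg : univ.image (S.orderEmbOfFin hS.1.2) = S := image_orderEmbOfFin_univ S hS.1.2
    refine ⟨S.orderEmbOfFin hS.1.2, ?_, himg⟩
    rw [mem_filter, mem_SM, himg]
    exact ⟨(S.orderEmbOfFin hS.1.2).strictMono, hS.2⟩

lemma card_SM (k N : ℕ) : (SM k N).card = N.choose k := by
  classical
  have := card_filter_powersetCard (k := k) (N := N) (fun _ => True)
  simp only [filter_true] at this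
  rw [← this, card_powersetCard, card_univ, Fintype.card_fin]

/-- the parities -/
def par {k N : ℕ} (y : Fin k → Fin N) (i : Fin k) : Bool := decide ((y i).val % 2 = 1)

lemma isInduced_line_iff {k N : ℕ} (T : Tournament k) {y : Fin k → Fin N} (hy : StrictMono y) :
    IsInduced T (line N) (univ.image y) ↔ Iso T (pat (par y)) := by
  classical
  have hadj : ∀ i j, (line N).adj (y i) (y j) ↔ (pat (par y)).adj i j := by
    intro i j
    have hlt : (y i).val < (y j).val ↔ i < j := hy.lt_iff_lt
    have hlt' : (y j).val < (y i).val ↔ j < i := hy.lt_iff_lt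
    simp only [line, pat, par, hlt, hlt', decide_eq_decide, ne_eq]
    constructor
    · rintro (⟨h1, h2⟩ | ⟨h1, h2⟩)
      · exact Or.inl ⟨h1, by omega⟩
      · exact Or.inr ⟨h1, by omega⟩
    · rintro (⟨h1, h2⟩ | ⟨h1, h2⟩)
      · exact Or.inl ⟨h1, by omega⟩
      · exact Or.inr ⟨h1, by omega⟩
  let g : Fin k ≃ (univ.image y : Finset (Fin N)) :=
    Equiv.ofBijective (fun i => ⟨y i, mem_image_of_mem _ (mem_univ i)⟩)
      ⟨fun i j h => hy.injective (congrArg Subtype.val h), fun ⟨x, hx⟩ => by
        obtain ⟨i, _, rfl⟩ := mem_image.1 hx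
        exact ⟨i, rfl⟩⟩
  have hg : ∀ i, ((g i : Fin N)) = y i := fun i => rfl
  constructor
  · rintro ⟨f, hf⟩
    refine ⟨f.trans g.symm, fun u v => ?_⟩
    rw [hf, ← hadj, ← hg, ← hg]
    simp
  · rintro ⟨e, he⟩
    refine ⟨e.trans g, fun u v => ?_⟩
    rw [he, ← hadj]
    rfl

open Classical in
/-- the number of parity patterns giving `T` -/
noncomputable def numPat {k : ℕ} (T : Tournament k) : ℕ :=
  ((univ : Finset (Fin k → Bool)).filter fun b => Iso T (pat b)).card

lemma card_pattern_ge {k N : ℕ} (b : Fin k → Bool) :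
    (N / 2).choose k ≤ ((SM k N).filter fun y => par y = b).card := by
  classical
  rw [← card_SM]
  have hlt : ∀ (z : Fin (N / 2)) (c : Bool), 2 * z.val + c.toNat < N := by
    intro z c
    have := z.2
    have hc : c.toNat ≤ 1 := Bool.toNat_le c
    omega
  refine card_le_card_of_injOn (fun z i => ⟨2 * (z i).val + (b i).toNat, hlt (z i) (b i)⟩) ?_ ?_
  · intro z hz
    rw [mem_coe, mem_SM] at hz
    rw [mem_coe, mem_filter, mem_SM]
    refine ⟨fun i j hij => ?_, ?_⟩
    · have h1 : (z i).val < (z j).val := hz hij
      have hc : (b i).toNat ≤ 1 := Bool.toNat_le _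
      change 2 * (z i).val + (b i).toNat < 2 * (z j).val + (b j).toNat
      omega
    · funext i
      unfold par
      cases hb : b i
      · simp [hb, Nat.mul_mod_right]
      · simp [hb, Nat.add_mod]
  · intro z _ z' _ h
    funext i
    have h1 := congrArg Fin.val (congrFun h i)
    simp only at h1
    apply Fin.ext
    omega

lemma density_line_bounds {k N : ℕ} (T : Tournament k) (hkN : k ≤ N) :
    (numPat T : ℝ) * (((N / 2).choose k : ℝ) / (N.choose k : ℝ)) ≤ density T (line N) ∧
    density T (line N) ≤ 1 - ((2 : ℝ) ^ k - numPat T) * (((N / 2).choose k : ℝ) / (N.choose k : ℝ)) := by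
  classical
  have hpos : (0 : ℝ) < (N.choose k : ℝ) := by exact_mod_cast Nat.choose_pos hkN
  have hcard : (((univ : Finset (Fin N)).powersetCard k).filter
      fun S => IsInduced T (line N) S).card =
      ((SM k N).filter fun y => Iso T (pat (par y))).card := by
    rw [card_filter_powersetCard]
    congr 1
    refine filter_congr fun y hy => ?_
    exact isInduced_line_iff T (mem_SM.1 hy)
  have hsum : ∀ (P : (Fin k → Bool) → Prop) [DecidablePred P]
      [DecidablePred fun y : Fin k → Fin N => P (par y)],
      (((univ : Finset (Fin k → Bool)).filter P).card) * (N / 2).choose k ≤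
      ((SM k N).filter fun y => P (par y)).card := by
    intro P _ _
    have h1 : ((SM k N).filter fun y => P (par y)).card =
        ∑ b ∈ (univ : Finset (Fin k → Bool)).filter P,
          (((SM k N).filter fun y => P (par y)).filter fun y => par y = b).card := by
      refine card_eq_sum_card_fiberwise ?_
      intro y hy
      rw [mem_coe, mem_filter] at hy ⊢
      exact ⟨mem_univ _, hy.2⟩
    rw [h1, ← smul_eq_mul, ← sum_const]
    refine sum_le_sum fun b hb => ?_
    refine (card_pattern_ge b).trans (card_le_card ?_)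
    intro y hy
    rw [mem_filter] at hy hb
    rw [mem_filter, mem_filter]
    exact ⟨⟨hy.1, by rw [hy.2]; exact hb.2⟩, hy.2⟩
  have hA : (((univ : Finset (Fin k → Bool)).filter fun b => Iso T (pat b)).card) *
      (N / 2).choose k ≤ ((SM k N).filter fun y => Iso T (pat (par y))).card :=
    hsum fun b => Iso T (pat b)
  have hB : (((univ : Finset (Fin k → Bool)).filter fun b => ¬ Iso T (pat b)).card) *
      (N / 2).choose k ≤ ((SM k N).filter fun y => ¬ Iso T (pat (par y))).card :=
    hsum fun b => ¬ Iso T (pat b)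
  have hnum : ((univ : Finset (Fin k → Bool)).filter fun b => Iso T (pat b)).card = numPat T := rfl
  have hnum' : (((univ : Finset (Fin k → Bool)).filter fun b => ¬ Iso T (pat b)).card : ℝ) =
      (2 : ℝ) ^ k - numPat T := by
    have := card_filter_add_card_filter_not (s := (univ : Finset (Fin k → Bool)))
      (fun b => Iso T (pat b))
    rw [hnum, card_univ, Fintype.card_fun, Fintype.card_bool, Fintype.card_fin] at this
    have h2 : ((numPat T + (((univ : Finset (Fin k → Bool)).filter
        fun b => ¬ Iso T (pat b)).card) : ℕ) : ℝ) = ((2 ^ k : ℕ) : ℝ) := by rw [this]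
    push_cast at h2
    linarith
  have htot := card_filter_add_card_filter_not (s := SM k N) (fun y => Iso T (pat (par y)))
  rw [card_SM] at htot
  have hd : density T (line N) =
      (((SM k N).filter fun y => Iso T (pat (par y))).card : ℝ) / (N.choose k : ℝ) := by
    rw [← hcard]; rfl
  constructor
  · rw [hd, mul_div_assoc', div_le_div_iff_of_pos_right hpos, ← hnum]
    exact_mod_cast hA
  · rw [hd, ← hnum', mul_div_assoc', le_sub_iff_add_le, ← add_div, div_le_one hpos]
    have h3 : (((univ : Finset (Fin k → Bool)).filter fun b => ¬ Iso T (pat b)).card : ℝ) *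
        ((N / 2).choose k : ℝ) ≤ (((SM k N).filter fun y => ¬ Iso T (pat (par y))).card : ℝ) := by
      exact_mod_cast hB
    have h4 : (((SM k N).filter fun y => Iso T (pat (par y))).card : ℝ) +
        (((SM k N).filter fun y => ¬ Iso T (pat (par y))).card : ℝ) = (N.choose k : ℝ) := by
      exact_mod_cast htot
    linarith

lemma density_line_tendsto {k : ℕ} (T : Tournament k) :
    Tendsto (fun N => density T (line N)) atTop (𝓝 (numPat T / 2 ^ k)) := by
  have h1 := choose_ratio_tendsto k (fun N => N / 2)
    (div_tendsto_half _ 1 (fun M => by omega) (fun M => by omega))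
  have hlo := h1.const_mul (numPat T : ℝ)
  have hhi := (h1.const_mul ((2 : ℝ) ^ k - numPat T)).const_sub 1
  have e1 : (numPat T : ℝ) * (1 / 2) ^ k = numPat T / 2 ^ k := by
    rw [one_div, inv_pow]; ring
  have e2 : 1 - ((2 : ℝ) ^ k - numPat T) * (1 / 2) ^ k = numPat T / 2 ^ k := by
    have : (2 : ℝ) ^ k ≠ 0 := by positivity
    rw [one_div, inv_pow]; field_simp; ring
  rw [e1] at hlo
  rw [e2] at hhi
  refine tendsto_of_tendsto_of_tendsto_of_le_of_le' hlo hhi ?_ ?_
  · filter_upwards [eventually_ge_atTop k] with N hN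
    exact (density_line_bounds T hN).1
  · filter_upwards [eventually_ge_atTop k] with N hN
    exact (density_line_bounds T hN).2

lemma strictMono_odd : StrictMono fun m : ℕ => 2 * m + 1 := by
  intro a b h; simp only; omega

lemma density_carousel_tendsto {k : ℕ} (T : Tournament k) :
    Tendsto (fun m => density T (carousel m)) atTop (𝓝 (numPat T / 2 ^ k)) := by
  have h := (density_line_tendsto T).comp strictMono_odd.tendsto_atTop
  refine h.congr fun m => ?_
  exact (density_iso T (iso_line m)).symm

lemma carouselLimit_eq {k : ℕ} (T : Tournament k) : carouselLimit k T = numPat T / 2 ^ k :=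
  (density_carousel_tendsto T).limUnder_eq

theorem carousel_convergesTo : ConvergesTo (fun m => 2 * m + 1) carousel carouselLimit := by
  refine ⟨strictMono_odd, fun k T => ?_⟩
  rw [carouselLimit_eq]
  exact density_carousel_tendsto T

lemma two_le_numPat (n : ℕ) : 2 ≤ numPat (carousel n) := by
  classical
  have hpat : ∀ c : Bool, Iso (carousel n)
      (pat (fun i : Fin (2 * n + 1) => xor c (decide (i.val % 2 = 1)))) := by
    intro c
    obtain ⟨e, he⟩ := iso_line n
    refine ⟨e, fun u v => ?_⟩
    rw [he]
    generalize e u = i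
    generalize e v = j
    simp only [line, pat, Fin.lt_def]
    have h1 : (xor c (decide (i.val % 2 = 1)) = xor c (decide (j.val % 2 = 1))) ↔
        (i.val + j.val) % 2 = 0 := by
      rw [Bool.xor_right_inj, decide_eq_decide]
      omega
    have h2 : (xor c (decide (i.val % 2 = 1)) ≠ xor c (decide (j.val % 2 = 1))) ↔
        (i.val + j.val) % 2 = 1 := by
      rw [ne_eq, h1]; omega
    rw [h1, h2]
  have hne : (fun i : Fin (2 * n + 1) => xor false (decide (i.val % 2 = 1))) ≠
      (fun i : Fin (2 * n + 1) => xor true (decide (i.val % 2 = 1))) := by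
    intro h
    have := congrFun h 0
    simp at this
  refine (card_pair hne).symm.le.trans (card_le_card ?_)
  intro b hb
  rw [mem_filter]
  refine ⟨mem_univ _, ?_⟩
  rcases mem_insert.1 hb with rfl | hb
  · exact hpat false
  · rw [mem_singleton.1 hb]; exact hpat true

lemma carouselLimit_ge (n : ℕ) : (1 / 4 : ℝ) ^ n ≤ carouselLimit (2 * n + 1) (carousel n) := by
  rw [carouselLimit_eq]
  have h : (2 : ℝ) ≤ numPat (carousel n) := by exact_mod_cast two_le_numPat n
  have h2 : (1 / 4 : ℝ) ^ n = 2 / 2 ^ (2 * n + 1) := by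
    rw [pow_succ, pow_mul, one_div, inv_pow]; norm_num; field_simp
  rw [h2]
  gcongr

end Pool.Agent.Lib.MP_286abe_co
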